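import Mathlib
import Pool.Agent.Work.MP_71a505_up.Defs

namespace Pool.Agent.Work.MP_71a505_up.H1B

/-- the polynomial `N`, with `2 K D₁³ D₂ D₃ (1+2e) = h N` -/
theorem K_formula {e h D1 D2 D3 D4 : ℝ} (h1 : D1 ≠ 0) (h2 : D2 ≠ 0) (h3 : D3 ≠ 0)
    (h4 : D4 ≠ 0) (e1 : D1 = h + 3) (e2 : D2 = h + 1 - e) (e3 : D3 = 1 - e - h * e)
    (e4 : D4 = 1 + 2 * e) :
    9 / 2 * (2 + e) * (qD e h * qS e h / (D1 ^ 3 * D2 * D3))
      + 29 / D1 - 11 / D2 + 9 * e / D3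
      + e ^ 3 * (2 + e) / D4 * (2 / D2 - 4 / D1)
    = h * ((276 + 828 * e + 828 * e ^ 2 + 366 * e ^ 3 - 360 * e ^ 4 - 360 * e ^ 5 - 120 * e ^ 6)
        + h * (208 + 522 * e + 510 * e ^ 2 + 583 * e ^ 3 + 114 * e ^ 4 - 72 * e ^ 5 - 56 * e ^ 6)
        + h ^ 2 * (36 + 8 * e - 88 * e ^ 2 + 72 * e ^ 3 + 44 * e ^ 4 + 8 * e ^ 5 - 8 * e ^ 6)
        + h ^ 3 * (-18 * e - 36 * e ^ 2 + 8 * e ^ 4 + 4 * e ^ 5))
      / (2 * (D1 ^ 3 * D2 * D3 * D4)) := by
  unfold qD qS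
  field_simp
  subst e1 e2 e3 e4
  ring

theorem mon {e h : ℝ} (he : 0 < e) (he1 : e ≤ 11 / 25) (hh : 0 < h) (hh1 : h ≤ 1 / 1000)
    (j k : ℕ) : 0 ≤ h ^ (j + 1) * e ^ k ∧ h ^ (j + 1) * e ^ k ≤ 1 / 1000 := by
  refine ⟨by positivity, ?_⟩
  have h1 : e ^ k ≤ 1 := pow_le_one₀ he.le (by linarith)
  have h2 : h ^ (j + 1) ≤ 1 / 1000 := by
    rw [pow_succ]
    have h3 : h ^ j ≤ 1 := pow_le_one₀ hh.le (by linarith)
    have h4 : 0 ≤ h ^ j := by positivity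
    nlinarith
  have h3 : 0 ≤ h ^ (j + 1) := by positivity
  have h4 : 0 ≤ e ^ k := by positivity
  nlinarith

theorem N_bounds {e h : ℝ} (he : 0 < e) (he1 : e ≤ 11 / 25) (hh : 0 < h) (hh1 : h ≤ 1 / 1000) :
    0 ≤ ((276 + 828 * e + 828 * e ^ 2 + 366 * e ^ 3 - 360 * e ^ 4 - 360 * e ^ 5 - 120 * e ^ 6)
        + h * (208 + 522 * e + 510 * e ^ 2 + 583 * e ^ 3 + 114 * e ^ 4 - 72 * e ^ 5 - 56 * e ^ 6)
        + h ^ 2 * (36 + 8 * e - 88 * e ^ 2 + 72 * e ^ 3 + 44 * e ^ 4 + 8 * e ^ 5 - 8 * e ^ 6)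
        + h ^ 3 * (-18 * e - 36 * e ^ 2 + 8 * e ^ 4 + 4 * e ^ 5)) ∧
    ((276 + 828 * e + 828 * e ^ 2 + 366 * e ^ 3 - 360 * e ^ 4 - 360 * e ^ 5 - 120 * e ^ 6)
        + h * (208 + 522 * e + 510 * e ^ 2 + 583 * e ^ 3 + 114 * e ^ 4 - 72 * e ^ 5 - 56 * e ^ 6)
        + h ^ 2 * (36 + 8 * e - 88 * e ^ 2 + 72 * e ^ 3 + 44 * e ^ 4 + 8 * e ^ 5 - 8 * e ^ 6)
        + h ^ 3 * (-18 * e - 36 * e ^ 2 + 8 * e ^ 4 + 4 * e ^ 5)) ≤ 900 := by
  have p : ∀ k : ℕ, 0 ≤ e ^ k ∧ e ^ k ≤ (11 / 25) ^ k :=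
    fun k => ⟨by positivity, pow_le_pow_left₀ he.le he1 k⟩
  have m := mon he he1 hh hh1
  have p2 := p 2
  have p3 := p 3
  have p4 := p 4
  have p5 := p 5
  have p6 := p 6
  have m00 := m 0 0
  have m01 := m 0 1
  have m02 := m 0 2
  have m03 := m 0 3
  have m04 := m 0 4
  have m05 := m 0 5
  have m06 := m 0 6
  have m10 := m 1 0
  have m11 := m 1 1
  have m12 := m 1 2
  have m13 := m 1 3
  have m14 := m 1 4
  have m15 := m 1 5
  have m16 := m 1 6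
  have m21 := m 2 1
  have m22 := m 2 2
  have m24 := m 2 4
  have m25 := m 2 5
  norm_num at p2 p3 p4 p5 p6 m00 m01 m02 m03 m04 m05 m06 m10 m11 m12 m13 m14 m15 m16 m21 m22 m24 m25
  constructor
  · linarith
  · linarith

theorem G_bounds {e h : ℝ} (he : 0 < e) (he1 : e ≤ 11 / 25) (hh : 0 < h) (hh1 : h ≤ 1 / 1000) :
    0 ≤ 9 / 2 * (2 + e) * (qD e h * qS e h / ((h + 3) ^ 3 * (h + 1 - e) * (1 - e - h * e))) ∧
    9 / 2 * (2 + e) * (qD e h * qS e h / ((h + 3) ^ 3 * (h + 1 - e) * (1 - e - h * e))) ≤ 3 := by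
  have hhe : h * e ≤ 1 / 1000 * (11 / 25) := by
    apply mul_le_mul hh1 he1 he.le (by norm_num)
  have hhe0 : 0 < h * e := by positivity
  have e2 : 0 < e ^ 2 := by positivity
  have d2 : 0 < h + 1 - e := by linarith
  have d3 : 0 < 1 - e - h * e := by linarith
  have e3 : (1 - e) ≤ h + 1 - e := by linarith
  have hqD : 0 ≤ qD e h := by
    unfold qD
    nlinarith
  have hqS : 0 ≤ qS e h := by
    unfold qS
    nlinarith
  constructor
  · positivity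
  · rw [← mul_div_assoc, div_le_iff₀ (by positivity)]
    -- 9/2 (2+e) qD qS ≤ 3 (h+3)^3 (h+1-e)(1-e-he)
    have k1 : qD e h ≤ 2 * (1 - e) ^ 2 := by
      unfold qD
      nlinarith
    have k2 : qS e h ≤ 2 * (1 + e + e ^ 2) := by
      unfold qS
      nlinarith
    have k3 : qD e h * qS e h ≤ 2 * (1 - e) ^ 2 * (2 * (1 + e + e ^ 2)) :=
      mul_le_mul k1 k2 hqS (by positivity)
    have k4 : (27 : ℝ) ≤ (h + 3) ^ 3 := by
      nlinarith [sq_nonneg h, pow_pos hh 3]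
    have k5 : 27 * (1 - e) * (1 - e - h * e) ≤ (h + 3) ^ 3 * (h + 1 - e) * (1 - e - h * e) := by
      apply mul_le_mul_of_nonneg_right _ d3.le
      apply mul_le_mul k4 e3 (by linarith) (by positivity)
    have k6 : 9 / 2 * (2 + e) * (2 * (1 - e) ^ 2 * (2 * (1 + e + e ^ 2))) ≤
        3 * (27 * (1 - e) * (1 - e - h * e)) := by
      have k7 : 9 / 2 * (2 + e) * (2 * (1 - e) * (2 * (1 + e + e ^ 2))) ≤
        3 * (27 * (1 - e - h * e)) := by
        have q3 : e ^ 3 ≤ (11 / 25) ^ 3 := pow_le_pow_left₀ he.le he1 3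
        have q2 : e ^ 2 ≤ (11 / 25) ^ 2 := pow_le_pow_left₀ he.le he1 2
        have q4 : 0 ≤ e ^ 4 := by positivity
        have q5 : 0 ≤ e ^ 3 := by positivity
        -- 18 (2+e)(1-e^3) ≤ 81 (1-e-he)
        have : 9 / 2 * (2 + e) * (2 * (1 - e) * (2 * (1 + e + e ^ 2))) =
          36 + 18 * e - 36 * e ^ 3 - 18 * e ^ 4 := by ring
        rw [this]
        nlinarith
      have k8 : 0 < 1 - e := by linarith
      nlinarith
    have k9 : 9 / 2 * (2 + e) * (qD e h * qS e h) ≤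
        9 / 2 * (2 + e) * (2 * (1 - e) ^ 2 * (2 * (1 + e + e ^ 2))) :=
      mul_le_mul_of_nonneg_left k3 (by positivity)
    linarith

section
variable {a b c r s t W e h α β γ δ x d g y z xb yb xc : ℝ}

/-- elementary sizes of the parameters -/
theorem sizes (R : RD a b c r s t W e h α β γ δ)
    (Q : RQ a b c d g r s t x y z xb yb xc) (hadg : 1000 * (d * g) ≤ a)
    (hz1 : e ^ 3 * b < a) (hz2 : h * c ≤ b) :
    3000 ≤ a ∧ 1000 * d ≤ a ∧ 1000 * g ≤ a ∧ e ≤ 11 / 25 ∧ h ≤ 1 / 1000 := by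
  have hd := Q.d1
  have hg := Q.g1
  have hdg := Q.dg3
  have hb := R.hb
  have h1 : d ≤ d * g := by nlinarith
  have h2 : g ≤ d * g := by nlinarith
  have ha : 3000 ≤ a := by linarith
  have hb0 : 0 < b := by linarith
  refine ⟨ha, by linarith, by linarith, ?_, ?_⟩
  · by_contra hcon
    push Not at hcon
    have h3 : (11 / 25 : ℝ) ^ 3 ≤ e ^ 3 := pow_le_pow_left₀ (by norm_num) hcon.le 3
    have h4 : (11 / 25 : ℝ) ^ 3 * b ≤ e ^ 3 * b := mul_le_mul_of_nonneg_right h3 hb0.le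
    norm_num at h4
    linarith
  · have hc := R.hc
    have hh := R.hh
    -- h * (4 a b) < h c ≤ b
    have h3 : h * (4 * a * b) ≤ h * c := mul_le_mul_of_nonneg_left hc.le hh.le
    have h4 : h * (4 * a) * b ≤ 1 * b := by linarith
    have h5 : h * (4 * a) ≤ 1 := le_of_mul_le_mul_right h4 hb0
    nlinarith

/-- `xb = dy + xz` with `dy ≤ xz ≤ 2 dy` -/
theorem xb_bounds (Q : RQ a b c d g r s t x y z xb yb xc) (hd : 1000 * d ≤ a) :
    2 * (d * y) ≤ xb ∧ xb ≤ 3 * (d * y) := by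
  have x0 := Q.x0
  have y0 := Q.y0
  have z0 := Q.z0
  have hd1 := Q.d1
  have hg1 := Q.g1
  have ha1 := Q.a1
  have hdg := Q.dg3
  have k1 : (x * z) ^ 2 = (a * d + 1) * (d * g + 1) := by rw [mul_pow, ← Q.x2, ← Q.z2]
  have k2 : (d * y) ^ 2 = d ^ 2 * (a * g + 1) := by rw [mul_pow, ← Q.y2]
  have k3 : (d * y) ^ 2 ≤ (x * z) ^ 2 := by
    rw [k1, k2]
    have : 0 ≤ d * (a - d) := by
      apply mul_nonneg <;> linarith
    nlinarith
  have k4 : (x * z) ^ 2 ≤ (2 * (d * y)) ^ 2 := by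
    rw [show (2 * (d * y)) ^ 2 = 4 * (d * y) ^ 2 by ring, k1, k2]
    -- (ad+1)(dg+1) ≤ 4 d² (ag+1)
    have e1 : 1 ≤ a * d := by nlinarith
    have e2 : 1 ≤ d * g := by linarith
    have e3 : (a * d + 1) * (d * g + 1) ≤ (2 * (a * d)) * (2 * (d * g)) := by
      apply mul_le_mul <;> nlinarith
    nlinarith [sq_nonneg d]
  have k5 : d * y ≤ x * z := (pow_le_pow_iff_left₀ (by positivity) (by positivity) two_ne_zero).1 k3
  have k6 : x * z ≤ 2 * (d * y) :=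
    (pow_le_pow_iff_left₀ (by positivity) (by positivity) two_ne_zero).1 k4
  rw [Q.exb]
  constructor <;> linarith

/-- the regular quadruple `{a, b, d, g}` and its other extension `c` -/
theorem c_formula (Q : RQ a b c d g r s t x y z xb yb xc) :
    c = 2 * (a + b + d) + 4 * (a * b * d) - g := by
  have x2 := Q.x2
  have y2 := Q.y2
  have z2 := Q.z2
  have k1 : r * xb = b * x - yb := by
    rw [Q.er, Q.exb, Q.eb, Q.eyb]
    linear_combination (-(a * x)) * z2 - d * x * y2 + y * z * x2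
  have k2 : 2 * (x * yb) = 2 * (g * (a * d + 1)) + (b - a - d - g - 2 * a * d * g) := by
    rw [Q.eyb, Q.eb]
    linear_combination (-(2 * g)) * x2
  rw [Q.ec]
  linear_combination 2 * x * k1 - k2 - 2 * b * x2

theorem quad_eq (Q : RQ a b c d g r s t x y z xb yb xc) :
    4 * (a * b * d * g) = (b - (a + d + g)) ^ 2 - 4 * (a * d + a * g + d * g) - 4 := by
  have x2 := Q.x2
  have y2 := Q.y2
  have z2 := Q.z2
  have k1 : (b - a - d - g - 2 * a * d * g) ^ 2 = 4 * ((a * d + 1) * (a * g + 1) * (d * g + 1)) := by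
    have : b - a - d - g - 2 * a * d * g = 2 * x * y * z := by rw [Q.eb]; ring
    rw [this, x2, y2, z2]
    ring
  linear_combination (-1) * k1

theorem gc_eq (Q : RQ a b c d g r s t x y z xb yb xc) :
    g * (c - b) = (b - a) ^ 2 - (2 * d + g) * b + d ^ 2 - 2 * (a * d) - 4 := by
  have k1 := quad_eq Q
  have k2 := c_formula Q
  rw [k2]
  linear_combination k1

theorem gc_bounds (Q : RQ a b c d g r s t x y z xb yb xc) (ha : 3000 ≤ a) (hd : 1000 * d ≤ a)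
    (hg : 1000 * g ≤ a) (hb : 12 * a < b) :
    g * (c - b) ≤ b ^ 2 ∧ 4 * b ^ 2 ≤ 5 * (g * (c - b)) := by
  have k1 := gc_eq Q
  have hd1 := Q.d1
  have hg1 := Q.g1
  have hd2 : 12000 * d ≤ b := by linarith
  have hg2 : 12000 * g ≤ b := by linarith
  have hb0 : 0 < b := by linarith
  constructor
  · rw [k1]
    have e1 : 0 ≤ a * (2 * b - a) := by
      apply mul_nonneg <;> linarith
    have e2 : 0 ≤ d * (b - d) := by
      apply mul_nonneg <;> linarith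
    have e3 : 0 ≤ d * b := by positivity
    have e4 : 0 ≤ g * b := by positivity
    have e5 : 0 ≤ a * d := by
      apply mul_nonneg <;> linarith
    nlinarith
  · rw [k1]
    have e1 : (11 / 12 * b) ^ 2 ≤ (b - a) ^ 2 :=
      pow_le_pow_left₀ (by positivity) (by linarith) 2
    have e2 : (2 * d + g) * b ≤ (3 / 12000 * b) * b :=
      mul_le_mul_of_nonneg_right (by linarith) hb0.le
    have e3 : a * d ≤ (1 / 12 * b) * (1 / 12000 * b) := by
      apply mul_le_mul <;> linarith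
    have e4 : 0 ≤ d ^ 2 := sq_nonneg d
    have e5 : (36000 : ℝ) ^ 2 ≤ b ^ 2 := pow_le_pow_left₀ (by norm_num) (by linarith) 2
    nlinarith

/-- `h (h+3)² a (c-b) = (ab+1) q_D (2+e)` -/
theorem h_formula (R : RD a b c r s t W e h α β γ δ) :
    h * (h + 3) ^ 2 * (a * (c - b)) = (a * b + 1) * qD e h * (2 + e) := by
  have hW := R.hW
  have k1 : (r * δ) ^ 2 = (α * ((h + 3) * e * W)) ^ 2 := by rw [R.rα]
  rw [mul_pow, mul_pow, R.D2, R.A2, ← R.r2] at k1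
  have k2 : ((a * b + 1) * qD e h) * W = (h * (h + 3) ^ 2 * e ^ 3 * W ^ 2) * W := by
    unfold qD
    linear_combination k1
  have k3 : (a * b + 1) * qD e h = h * (h + 3) ^ 2 * e ^ 3 * W ^ 2 := mul_right_cancel₀ hW.ne' k2
  rw [R.acb, k3]
  ring

theorem V_formula {D1 D2 D3 : ℝ} (h1 : D1 ≠ 0) (h2 : D2 ≠ 0) (h3 : D3 ≠ 0)
    (e1 : D1 = h + 3) (e2 : D2 = h + 1 - e) (e3 : D3 = 1 - e - h * e) :
    3 / D1 - 1 / D2 + e / D3 = h * qS e h / (D1 * D2 * D3) := by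
  unfold qS
  field_simp
  subst e1 e2 e3
  ring

/-- the correction terms `ρ`, `η` -/
theorem rho_bounds (Q : RQ a b c d g r s t x y z xb yb xc) (hc : 4 * a * b < c) (ha : 3000 ≤ a)
    (hd : 1000 * d ≤ a) (hg : 1000 * g ≤ a) (hb : 12 * a < b) {ρ η T : ℝ}
    (hT : T = (c - a - b - d) / 2) (hρ : ρ * (a * (c - b)) = a * b * (a + d) - 2 * T)
    (hη : η * (c - a) = a * (b - a)) :
    ρ ≤ g / 6 ∧ -g ≤ ρ ∧ 0 ≤ η ∧ η ≤ g := by
  obtain ⟨g1, g2⟩ := gc_bounds Q ha hd hg hb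
  have hd1 := Q.d1
  have hg1 := Q.g1
  have hb0 : 0 < b := by linarith
  have ha0 : 0 < a := by linarith
  have hab : b ≤ a * b := by nlinarith
  have hcb : 0 < c - b := by nlinarith
  have hca : 0 < c - a := by linarith
  have hT0 : 0 ≤ T := by
    rw [hT]
    have : a + b + d ≤ c := by nlinarith
    linarith
  have hacb : 0 < a * (c - b) := by positivity
  have hab2 : a * b ≤ 1 / 12 * b ^ 2 := by nlinarith
  refine ⟨?_, ?_, ?_, ?_⟩
  · apply le_of_mul_le_mul_right _ hacb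
    rw [hρ]
    have k1 : b * (a + d) ≤ g / 6 * (c - b) := by nlinarith
    have k2 : a * (b * (a + d)) ≤ a * (g / 6 * (c - b)) := mul_le_mul_of_nonneg_left k1 ha0.le
    linarith
  · apply le_of_mul_le_mul_right _ hacb
    rw [hρ]
    have k1 : 2 * T ≤ c - b := by rw [hT]; linarith
    have k2 : 1 * (c - b) ≤ (g * a) * (c - b) := by
      apply mul_le_mul_of_nonneg_right _ hcb.le
      nlinarith
    have k3 : 0 ≤ a * b * (a + d) := by positivity
    linarith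
  · apply le_of_mul_le_mul_right _ hca
    rw [hη, zero_mul]
    apply mul_nonneg <;> linarith
  · apply le_of_mul_le_mul_right _ hca
    rw [hη]
    have k1 : g * (c - b) ≤ g * (c - a) := mul_le_mul_of_nonneg_left (by linarith) (by linarith)
    nlinarith [sq_nonneg a, sq_nonneg b]

end

end Pool.Agent.Work.MP_71a505_up.H1B

namespace Pool.Agent.Work.MP_71a505_up

open H1B

variable {a b c r s t W e h α β γ δ x d g y z xb yb xc : ℝ}

/-- BLOCK H1B -/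
theorem H1_size (hz1 : e ^ 3 * b < a ∧ 3 * a ≤ 8 * (e ^ 3 * b) ∧ W ^ 2 ≤ b * c ∧
      b * c ≤ 4 * W ^ 2 ∧ h * c ≤ b ∧ 50 ≤ b ∧ W < t ∧ 47 * c ≤ 48 * (c - a))
    (R : RD a b c r s t W e h α β γ δ)
    (Q : RQ a b c d g r s t x y z xb yb xc) (hadg : 1000 * (d * g) ≤ a)
    {L1 L2 L3 T : ℝ} (hL1 : L1 = (h + 3) * e * W)
    (hL2 : L2 = (h + 1 - e) * e * W) (hL3 : L3 = (1 - e - h * e) * W)
    (hT : T = (c - a - b - d) / 2) :
    0 < (y * (9 * T * (3 / L1 - 1 / L2 + 1 / L3) + (29 * b - 4 * a + 31 * d + 4 * g) / L1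
          + (-11 * b + 2 * a - 11 * d) / L2 + 9 * b / L3) + xb * (22 / L2 - 33 / L1)) * (e * W) ∧
    (y * (9 * T * (3 / L1 - 1 / L2 + 1 / L3) + (29 * b - 4 * a + 31 * d + 4 * g) / L1
          + (-11 * b + 2 * a - 11 * d) / L2 + 9 * b / L3) + xb * (22 / L2 - 33 / L1)) * (e * W)
      ≤ 1000 * (y * (d + g)) := by
  obtain ⟨z1, -, -, -, z5, -, -, -⟩ := hz1
  obtain ⟨ha, hd, hg, he1, hh1⟩ := sizes R Q hadg z1 z5
  obtain ⟨hxb1, hxb2⟩ := xb_bounds Q hd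
  obtain ⟨gc1, gc2⟩ := gc_bounds Q ha hd hg R.hb
  have he := R.he
  have hh := R.hh
  have hW := R.hW
  have hb := R.hb
  have hc := R.hc
  have y0 := Q.y0
  have d1 := Q.d1
  have g1 := Q.g1
  have hb0 : 0 < b := by linarith
  have ha0 : 0 < a := by linarith
  have hab : 1 * b ≤ a * b := mul_le_mul_of_nonneg_right (by linarith) hb0.le
  have hcb : 0 < c - b := by linarith
  have hca : 0 < c - a := by linarith
  have hc0 : 0 < c := by linarith
  have hhe : h * e ≤ 1 / 1000 * (11 / 25) := mul_le_mul hh1 he1 he.le (by norm_num)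
  have hhe0 : 0 < h * e := by positivity
  -- denominators
  obtain ⟨D1, hD1⟩ : ∃ D, D = h + 3 := ⟨_, rfl⟩
  obtain ⟨D2, hD2⟩ : ∃ D, D = h + 1 - e := ⟨_, rfl⟩
  obtain ⟨D3, hD3⟩ : ∃ D, D = 1 - e - h * e := ⟨_, rfl⟩
  obtain ⟨D4, hD4⟩ : ∃ D, D = 1 + 2 * e := ⟨_, rfl⟩
  have p1 : 0 < D1 := by linarith
  have p2 : 0 < D2 := by linarith
  have p3 : 0 < D3 := by linarith
  have p4 : 0 < D4 := by linarith
  obtain ⟨v1, hv1⟩ : ∃ v, v = 1 / D1 := ⟨_, rfl⟩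
  obtain ⟨v2, hv2⟩ : ∃ v, v = 1 / D2 := ⟨_, rfl⟩
  obtain ⟨v3, hv3⟩ : ∃ v, v = 1 / D3 := ⟨_, rfl⟩
  have w1 : v1 * D1 = 1 := by rw [hv1]; field_simp
  have w2 : v2 * D2 = 1 := by rw [hv2]; field_simp
  have w3 : v3 * D3 = 1 := by rw [hv3]; field_simp
  obtain ⟨V, hV⟩ : ∃ V, V = 3 * v1 - v2 + e * v3 := ⟨_, rfl⟩
  have hVf : V = h * qS e h / (D1 * D2 * D3) := by
    rw [← V_formula p1.ne' p2.ne' p3.ne' hD1 hD2 hD3, hV, hv1, hv2, hv3]
    ring
  obtain ⟨Gp, hGp⟩ : ∃ G, G = 9 / 2 * (2 + e) * (qD e h * qS e h / (D1 ^ 3 * D2 * D3)) := ⟨_, rfl⟩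
  have hG := G_bounds he he1 hh hh1
  rw [← hD1, ← hD2, ← hD3, ← hGp] at hG
  obtain ⟨hG0, hG3⟩ := hG
  obtain ⟨ρ, hρ'⟩ : ∃ ρ, ρ = (a * b * (a + d) - 2 * T) / (a * (c - b)) := ⟨_, rfl⟩
  have hacb : 0 < a * (c - b) := by positivity
  have hρ : ρ * (a * (c - b)) = a * b * (a + d) - 2 * T := by
    rw [hρ']; field_simp
  obtain ⟨κ, hκ⟩ : ∃ κ, κ = e ^ 3 * (2 + e) / D4 := ⟨_, rfl⟩
  have hκ' : κ * D4 = e ^ 3 * (2 + e) := by rw [hκ]; field_simp
  obtain ⟨η, hη'⟩ : ∃ η, η = a - b * κ := ⟨_, rfl⟩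
  have hη : η * (c - a) = a * (b - a) := by
    rw [hη']
    have k1 := R.bca
    have k2 := R.acb
    rw [hD4] at hκ'
    linear_combination (-κ) * k1 + k2 - W ^ 2 * hκ'
  obtain ⟨r1, r2, r3, r4⟩ := rho_bounds Q hc ha hd hg hb hT hρ hη
  -- the identity for `9 T V`
  have hTV : 9 * T * V = Gp * (b - ρ) := by
    have k0 := h_formula R
    rw [← hD1] at k0
    have k1 : 9 * T * V * (a * (c - b)) * D1 ^ 2 = Gp * (b - ρ) * (a * (c - b)) * D1 ^ 2 := by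
      have k2 : Gp * (b - ρ) * (a * (c - b)) * D1 ^ 2 =
          Gp * D1 ^ 2 * (b * (a * (c - b)) - ρ * (a * (c - b))) := by ring
      rw [k2, hρ, hVf, hGp]
      have k3 : 9 * T * (h * qS e h / (D1 * D2 * D3)) * (a * (c - b)) * D1 ^ 2 =
          9 * T * qS e h / (D1 * D2 * D3) * (h * D1 ^ 2 * (a * (c - b))) := by
        field_simp
      rw [k3, k0]
      have k4 : b * (a * (c - b)) - (a * b * (a + d) - 2 * T) = 2 * T * (a * b + 1) := by
        rw [hT]; ring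
      rw [k4]
      field_simp
    have k5 := mul_right_cancel₀ (pow_ne_zero 2 p1.ne') k1
    exact mul_right_cancel₀ hacb.ne' k5
  -- the function `K`
  obtain ⟨K, hK⟩ : ∃ K, K = Gp + 29 * v1 - 11 * v2 + 9 * e * v3 + κ * (2 * v2 - 4 * v1) :=
    ⟨_, rfl⟩
  have hKf := K_formula p1.ne' p2.ne' p3.ne' p4.ne' hD1 hD2 hD3 hD4
  have hK' : K = 9 / 2 * (2 + e) * (qD e h * qS e h / (D1 ^ 3 * D2 * D3))
      + 29 / D1 - 11 / D2 + 9 * e / D3
      + e ^ 3 * (2 + e) / D4 * (2 / D2 - 4 / D1) := by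
    rw [hK, hGp, hκ, hv1, hv2, hv3]
    ring
  rw [← hK'] at hKf
  obtain ⟨n1, n2⟩ := N_bounds he he1 hh hh1
  have hD27 : 16 ≤ 2 * (D1 ^ 3 * D2 * D3 * D4) := by
    have j1 : (27 : ℝ) ≤ D1 ^ 3 := by
      have : (3 : ℝ) ^ 3 ≤ D1 ^ 3 := pow_le_pow_left₀ (by norm_num) (by linarith) 3
      linarith
    have j2 : (14 / 25 : ℝ) ≤ D2 := by linarith
    have j3 : (11 / 20 : ℝ) ≤ D3 := by linarith
    have j4 : (1 : ℝ) ≤ D4 := by linarith
    have j5 : (27 : ℝ) * (14 / 25) ≤ D1 ^ 3 * D2 := mul_le_mul j1 j2 (by norm_num) (by positivity)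
    have j6 : (27 : ℝ) * (14 / 25) * (11 / 20) ≤ D1 ^ 3 * D2 * D3 :=
      mul_le_mul j5 j3 (by norm_num) (by positivity)
    have j7 : (27 : ℝ) * (14 / 25) * (11 / 20) * 1 ≤ D1 ^ 3 * D2 * D3 * D4 :=
      mul_le_mul j6 j4 (by norm_num) (by positivity)
    linarith
  have hKb : 0 ≤ K ∧ K ≤ 60 * h := by
    rw [hKf]
    constructor
    · apply div_nonneg (mul_nonneg hh.le n1) (by linarith)
    · rw [div_le_iff₀ (by linarith)]
      have j1 := mul_le_mul_of_nonneg_left n2 hh.le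
      have j2 := mul_le_mul_of_nonneg_left hD27 (by linarith : 0 ≤ 60 * h)
      linarith
  -- `b h ≤ (5/4) g`
  have hbh : b * h ≤ 5 / 4 * g := by
    have j0 := mul_le_mul_of_nonneg_left z5 hb0.le
    have j1 : b * h * c ≤ b ^ 2 := by linarith
    have j3 : 0 < g * b := mul_pos (by linarith) hb0
    have j2 : b ^ 2 ≤ 5 / 4 * g * c := by linarith
    exact le_of_mul_le_mul_right (j1.trans j2) hc0
  have hbK0 : 0 ≤ b * K := mul_nonneg hb0.le hKb.1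
  have hbK1 : b * K ≤ 75 * g := by
    have j1 := mul_le_mul_of_nonneg_left hKb.2 hb0.le
    linarith
  -- the values of `v1`, `v2`
  have q1 : v1 ≤ 1 / 3 := by
    rw [hv1]; exact one_div_le_one_div_of_le (by norm_num) (by linarith)
  have q1' : 33 / 100 ≤ v1 := by
    rw [hv1, le_div_iff₀ p1]; linarith
  have q2 : 99 / 100 ≤ v2 := by
    rw [hv2, le_div_iff₀ p2]; linarith
  have q2' : v2 ≤ 2 := by
    rw [hv2, div_le_iff₀ p2]; linarith
  -- the expression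
  have hexp : (y * (9 * T * (3 / L1 - 1 / L2 + 1 / L3) + (29 * b - 4 * a + 31 * d + 4 * g) / L1
          + (-11 * b + 2 * a - 11 * d) / L2 + 9 * b / L3) + xb * (22 / L2 - 33 / L1)) * (e * W)
      = y * (b * K - Gp * ρ + η * (2 * v2 - 4 * v1) + (31 * d + 4 * g) * v1 - 11 * d * v2)
        + xb * (22 * v2 - 33 * v1) := by
    have i1 : L1 = D1 * e * W := by rw [hL1, hD1]
    have i2 : L2 = D2 * e * W := by rw [hL2, hD2]
    have i3 : L3 = D3 * W := by rw [hL3, hD3]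
    have j1 : (y * (9 * T * (3 / L1 - 1 / L2 + 1 / L3) + (29 * b - 4 * a + 31 * d + 4 * g) / L1
          + (-11 * b + 2 * a - 11 * d) / L2 + 9 * b / L3) + xb * (22 / L2 - 33 / L1)) * (e * W)
        = y * (9 * T * (3 * (1 / L1 * (e * W)) - 1 / L2 * (e * W) + 1 / L3 * (e * W))
          + (29 * b - 4 * a + 31 * d + 4 * g) * (1 / L1 * (e * W))
          + (-11 * b + 2 * a - 11 * d) * (1 / L2 * (e * W)) + 9 * b * (1 / L3 * (e * W)))
          + xb * (22 * (1 / L2 * (e * W)) - 33 * (1 / L1 * (e * W))) := by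
      ring
    have j2 : 1 / L1 * (e * W) = v1 := by rw [i1, hv1]; field_simp
    have j3 : 1 / L2 * (e * W) = v2 := by rw [i2, hv2]; field_simp
    have j4 : 1 / L3 * (e * W) = e * v3 := by rw [i3, hv3]; field_simp
    rw [j1, j2, j3, j4]
    have j5 : 9 * T * (3 * v1 - v2 + e * v3) = Gp * (b - ρ) := by rw [← hV, hTV]
    have j6 : a = b * κ + η := by rw [hη']; ring
    rw [j5, hK]
    have j7 : a * (2 * v2 - 4 * v1) = (b * κ + η) * (2 * v2 - 4 * v1) := by rw [← j6]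
    linear_combination y * j7
  rw [hexp]
  have u1 : 0 ≤ 22 * v2 - 33 * v1 := by linarith
  have u2 : 2 * (d * y) * (22 * v2 - 33 * v1) ≤ xb * (22 * v2 - 33 * v1) :=
    mul_le_mul_of_nonneg_right hxb1 u1
  have u3 : xb * (22 * v2 - 33 * v1) ≤ 3 * (d * y) * (22 * v2 - 33 * v1) :=
    mul_le_mul_of_nonneg_right hxb2 u1
  have u4 : Gp * ρ ≤ g / 2 := by
    rcases le_or_gt ρ 0 with h0 | h0
    · have := mul_nonneg hG0 (neg_nonneg.2 h0)
      linarith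
    · have j1 : Gp * ρ ≤ 3 * ρ := mul_le_mul_of_nonneg_right hG3 h0.le
      linarith
  have u5 : -(3 * g) ≤ Gp * ρ := by
    rcases le_or_gt 0 ρ with h0 | h0
    · have := mul_nonneg hG0 h0
      linarith
    · have j1 : Gp * (-ρ) ≤ 3 * (-ρ) := mul_le_mul_of_nonneg_right hG3 (by linarith)
      linarith
  have u6 : 0 ≤ η * (2 * v2 - 4 * v1) := mul_nonneg r3 (by linarith)
  have u7 : η * (2 * v2 - 4 * v1) ≤ g * 4 := mul_le_mul r4 (by linarith) (by linarith) (by linarith)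
  constructor
  · have k1 : 0 < b * K - Gp * ρ + η * (2 * v2 - 4 * v1) + (31 * d + 4 * g) * v1 - 11 * d * v2
        + 2 * d * (22 * v2 - 33 * v1) := by
      have j1 : 0 ≤ d * (33 * v2 - 35 * v1) := mul_nonneg (by linarith) (by linarith)
      have j2 : g * (33 / 100) ≤ g * v1 := mul_le_mul_of_nonneg_left q1' (by linarith)
      linarith
    have k2 := mul_pos y0 k1
    linarith
  · have k1 : b * K - Gp * ρ + η * (2 * v2 - 4 * v1) + (31 * d + 4 * g) * v1 - 11 * d * v2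
        + 3 * d * (22 * v2 - 33 * v1) ≤ 1000 * (d + g) := by
      have j1 : d * v2 ≤ d * 2 := mul_le_mul_of_nonneg_left q2' (by linarith)
      have j2 : g * v1 ≤ g * (1 / 3) := mul_le_mul_of_nonneg_left q1 (by linarith)
      have j3 : 0 ≤ d * v1 := mul_nonneg (by linarith) (by linarith)
      linarith
    have k2 := mul_le_mul_of_nonneg_left k1 y0.le
    linarith

end Pool.Agent.Work.MP_71a505_up
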