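import Mathlib
import Pool.Agent.Work.MP_71a505_up.Defs

namespace Pool.Agent.Work.MP_71a505_up.G1R

variable {a b c r s t W e h α β γ δ x : ℝ}

/-- `h (h+3)² a (c-b) = (ab+1) q_D (2+e)` -/
theorem h_formula (R : RD a b c r s t W e h α β γ δ) :
    h * (h + 3) ^ 2 * (a * (c - b)) = (a * b + 1) * qD e h * (2 + e) := by
  have hW := R.hW
  have k1 : (r * δ) ^ 2 = (α * ((h + 3) * e * W)) ^ 2 := by rw [R.rα]
  rw [mul_pow, mul_pow, R.D2, R.A2, ← R.r2] at k1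
  have k2 : ((a * b + 1) * qD e h) * W = (h * (h + 3) ^ 2 * e ^ 3 * W ^ 2) * W := by
    unfold qD
    linear_combination k1
  have k3 : (a * b + 1) * qD e h = h * (h + 3) ^ 2 * e ^ 3 * W ^ 2 := mul_right_cancel₀ hW.ne' k2
  rw [R.acb, k3]
  ring

/-- the size of `e` -/
theorem e_small (ha : 1 ≤ a) (hb : 6000000 * a < b) (z1 : e ^ 3 * b < a) :
    e < 1 / 181 := by
  by_contra hcon
  push Not at hcon
  have h3 : (1 / 181 : ℝ) ^ 3 ≤ e ^ 3 := pow_le_pow_left₀ (by norm_num) hcon 3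
  have h4 : (1 / 181 : ℝ) ^ 3 * b ≤ e ^ 3 * b := mul_le_mul_of_nonneg_right h3 (by linarith)
  norm_num at h4
  linarith

/-- `a / r ≤ e / 8` and `1 / r² ≤ e / 10000` -/
theorem ar_small (he : 0 < e) (he1 : e < 1 / 181) (ha : 1 ≤ a) (hb : 6000000 * a < b)
    (z2 : 3 * a ≤ 8 * (e ^ 3 * b)) (hr : 0 < r) (r2 : a * b + 1 = r ^ 2) :
    1000 * a ≤ 123 * (e * r) ∧ 10000 ≤ e * r ^ 2 ∧ 1000 * a ≤ r ∧ 1 ≤ 3 * e ^ 3 * (a * b) := by
  have hb0 : 0 < b := by linarith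
  have hab : 6000000 * a * a ≤ a * b := by nlinarith
  have e2 : 0 < e ^ 2 := by positivity
  have e3 : e ^ 3 ≤ 1 / 181 * e ^ 2 := by nlinarith
  have e4 : e ^ 3 ≤ (1 / 181) ^ 2 * e := by nlinarith
  have k0 : a * (3 * a) ≤ a * (8 * (e ^ 3 * b)) := mul_le_mul_of_nonneg_left z2 (by linarith)
  have hab0 : 0 < a * b := by positivity
  refine ⟨?_, ?_, ?_, ?_⟩
  · have k1 : (1000 * a) ^ 2 ≤ (123 * (e * r)) ^ 2 := by
      have : (123 * (e * r)) ^ 2 = 15129 * e ^ 2 * (a * b + 1) := by rw [r2]; ring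
      rw [this]
      have j1 : e ^ 3 * (a * b) ≤ 1 / 181 * e ^ 2 * (a * b) :=
        mul_le_mul_of_nonneg_right e3 hab0.le
      nlinarith
    exact (pow_le_pow_iff_left₀ (by positivity) (by positivity) two_ne_zero).1 k1
  · rw [← r2]
    have j1 : e ^ 3 * (a * b) ≤ (1 / 181) ^ 2 * e * (a * b) :=
      mul_le_mul_of_nonneg_right e4 hab0.le
    have j2 : 1 ≤ a * a := by nlinarith
    nlinarith
  · have k1 : (1000 * a) ^ 2 ≤ r ^ 2 := by
      rw [← r2]; nlinarith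
    exact (pow_le_pow_iff_left₀ (by positivity) (by positivity) two_ne_zero).1 k1
  · have j2 : 1 ≤ a * a := by nlinarith
    nlinarith

/-- `s ≥ 1.99 r²`, `c ≥ 3.9 a b²` -/
theorem c_large (ha : 1 ≤ a) (hb : 6000000 * a < b) (hr : 0 < r) (r2 : a * b + 1 = r ^ 2)
    (hra : 1000 * a ≤ r) (s2 : a * c + 1 = s ^ 2) (hx : r - a ≤ x) (hs : s = 2 * r * x - 1) :
    199 / 100 * r ^ 2 ≤ s ∧ 39 / 10 * (a * b ^ 2) ≤ c := by
  have hb0 : 0 < b := by linarith
  have ha0 : 0 < a := by linarith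
  have hab : 6000000 * a * a ≤ a * b := by nlinarith
  have haa : 1 ≤ a * a := by nlinarith
  have hab1 : 6000000 ≤ a * b := by linarith
  have k1 : 199 / 100 * r ^ 2 ≤ s := by
    have j1 : r * (999 / 1000 * r) ≤ r * x := mul_le_mul_of_nonneg_left (by linarith) hr.le
    rw [hs]
    nlinarith
  refine ⟨k1, ?_⟩
  have k2 : (199 / 100 * r ^ 2) ^ 2 ≤ s ^ 2 := pow_le_pow_left₀ (by positivity) k1 2
  rw [← s2, ← r2] at k2
  have k3 : a * (39 / 10 * (a * b ^ 2)) ≤ a * c := by nlinarith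
  exact le_of_mul_le_mul_left k3 ha0

/-- `h c ≤ 0.46 b`, `h ≤ e / 60000` -/
theorem h_small (R : RD a b c r s t W e h α β γ δ) (he1 : e < 1 / 181) (hb : 6000000 * a < b)
    (hc : 39 / 10 * (a * b ^ 2) ≤ c) (hab3 : 1 ≤ 3 * e ^ 3 * (a * b)) :
    h * c ≤ 46 / 100 * b ∧ 60000 * h ≤ e := by
  have ha := R.ha
  have he := R.he
  have hh := R.hh
  have hb0 : 0 < b := by linarith
  have ha0 : 0 < a := by linarith
  have haa : 1 ≤ a * a := by nlinarith
  have hab : 6000000 * a * a ≤ a * b := by nlinarith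
  have hab1 : 6000000 ≤ a * b := by linarith
  have hcb : 1000000 * b ≤ c := by nlinarith
  have k0 := h_formula R
  have k1 : h * 9 * (a * (c - b)) ≤ h * (h + 3) ^ 2 * (a * (c - b)) := by
    apply mul_le_mul_of_nonneg_right _ (mul_nonneg ha0.le (by linarith))
    apply mul_le_mul_of_nonneg_left _ hh.le
    nlinarith
  have k2 : (a * b + 1) * qD e h * (2 + e) ≤ (a * b + 1) * 2 * (2 + 1 / 181) := by
    have j1 : qD e h ≤ 2 := by
      unfold qD
      nlinarith [mul_pos hh he]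
    have j2 : (a * b + 1) * qD e h ≤ (a * b + 1) * 2 := mul_le_mul_of_nonneg_left j1 (by positivity)
    calc (a * b + 1) * qD e h * (2 + e) ≤ (a * b + 1) * 2 * (2 + e) :=
          mul_le_mul_of_nonneg_right j2 (by linarith)
      _ ≤ (a * b + 1) * 2 * (2 + 1 / 181) := by
          apply mul_le_mul_of_nonneg_left (by linarith) (by positivity)
  have k3 : a * (h * (c - b)) ≤ a * (45 / 100 * b) := by
    have := k1.trans (k0.le.trans k2)
    nlinarith
  have k4 : h * (c - b) ≤ 45 / 100 * b := le_of_mul_le_mul_left k3 ha0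
  have k5 : h * (999999 / 1000000 * c) ≤ h * (c - b) :=
    mul_le_mul_of_nonneg_left (by linarith) hh.le
  have k6 : h * c ≤ 46 / 100 * b := by linarith
  refine ⟨k6, ?_⟩
  -- h (3.9 a b²) ≤ h c ≤ 0.46 b
  have k7 : h * (39 / 10 * (a * b ^ 2)) ≤ 46 / 100 * b :=
    (mul_le_mul_of_nonneg_left hc hh.le).trans k6
  have k8 : (h * (39 / 10 * (a * b))) * b ≤ (46 / 100) * b := by linarith
  have k9 : h * (39 / 10 * (a * b)) ≤ 46 / 100 := le_of_mul_le_mul_right k8 hb0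
  have e2 : 0 < e ^ 2 := by positivity
  have e4 : e ^ 3 ≤ (1 / 181) ^ 2 * e := by nlinarith
  have k10 : e ^ 3 * (a * b) ≤ (1 / 181) ^ 2 * e * (a * b) :=
    mul_le_mul_of_nonneg_right e4 (by positivity)
  have k11 : 60000 * h * (a * b) ≤ e * (a * b) := by nlinarith
  exact le_of_mul_le_mul_right k11 (by positivity)

/-- third inequality -/
theorem third (R : RD a b c r s t W e h α β γ δ) (he1 : e < 1 / 181) (hb : 6000000 * a < b)
    (hc : 39 / 10 * (a * b ^ 2) ≤ c) (hhc : h * c ≤ 46 / 100 * b) (z1 : e ^ 3 * b < a)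
    (z3 : W ^ 2 ≤ b * c) : 45 * (h * e ^ 2 * W) < 1 := by
  have ha := R.ha
  have he := R.he
  have hh := R.hh
  have hW := R.hW
  have hb0 : 0 < b := by linarith
  have ha0 : 0 < a := by linarith
  have hc0 : 0 < c := by
    have : 0 < a * b ^ 2 := by positivity
    linarith
  have k1 : (h * c) ^ 2 ≤ (46 / 100 * b) ^ 2 := pow_le_pow_left₀ (by positivity) hhc 2
  have k2 : h ^ 2 * c * (39 / 10 * (a * b ^ 2)) ≤ (46 / 100 * b) ^ 2 := by
    have : h ^ 2 * c * (39 / 10 * (a * b ^ 2)) ≤ h ^ 2 * c * c :=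
      mul_le_mul_of_nonneg_left hc (by positivity)
    linarith
  have k3 : (h ^ 2 * c * (39 / 10 * a)) * b ^ 2 ≤ (46 / 100) ^ 2 * b ^ 2 := by linarith
  have k4 : h ^ 2 * c * (39 / 10 * a) ≤ (46 / 100) ^ 2 := le_of_mul_le_mul_right k3 (by positivity)
  have k5 : (45 * (h * e ^ 2 * W)) ^ 2 ≤ 2025 * (h ^ 2 * c) * e ^ 4 * b := by
    have : (45 * (h * e ^ 2 * W)) ^ 2 = 2025 * h ^ 2 * e ^ 4 * W ^ 2 := by ring
    rw [this]
    have j := mul_le_mul_of_nonneg_left z3 (by positivity : 0 ≤ 2025 * h ^ 2 * e ^ 4)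
    linarith
  have k6 : 2025 * (h ^ 2 * c) * e ^ 4 * b * (39 / 10) ≤ 2025 * (46 / 100) ^ 2 * e := by
    -- e^4 b ≤ e a
    have j1 : e ^ 4 * b ≤ e * a := by
      have := mul_le_mul_of_nonneg_left z1.le he.le
      linarith
    have j2 := mul_le_mul_of_nonneg_left j1 (by positivity : 0 ≤ 2025 * (h ^ 2 * c) * (39 / 10))
    have j3 := mul_le_mul_of_nonneg_left k4 (by positivity : 0 ≤ 2025 * e)
    linarith
  have k7 : (45 * (h * e ^ 2 * W)) ^ 2 < 1 ^ 2 := by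
    nlinarith
  exact lt_of_pow_lt_pow_left₀ 2 (by norm_num) k7

theorem k5_lemma {e h : ℝ} (he : 0 < e) (he1 : e < 1 / 181) (hh : 0 < h)
    (hhe : 60000 * h ≤ e) : 8 * (1 + 149 / 100 * e) * ((1 + h) * (1 + h)) ≤
        4 * ((1 - 4 * h * e) * (1 - h * e)) * ((1 + e + e ^ 2) * (2 + e)) := by
  have hh1 : h ≤ 1 / 60000 := by linarith
  have hhe0 : 0 < h * e := by positivity
  have hhe1 : h * e ≤ h * (1 / 181) := mul_le_mul_of_nonneg_left he1.le hh.le
  have j1 : (1 + h) * (1 + h) ≤ 1 + 3 * h := by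
    have := mul_le_mul_of_nonneg_left hh1 hh.le
    linarith
  have j2 : 1 - h ≤ (1 - 4 * h * e) * (1 - h * e) := by
    have := mul_pos hhe0 hhe0
    linarith
  have j3 : 2 + 3 * e ≤ (1 + e + e ^ 2) * (2 + e) := by
    have := pow_pos he 3
    have := pow_pos he 2
    linarith
  have j4 : 8 * (1 + 149 / 100 * e) * ((1 + h) * (1 + h)) ≤
      8 * (1 + 149 / 100 * e) * (1 + 3 * h) := mul_le_mul_of_nonneg_left j1 (by positivity)
  have j5 : 4 * (1 - h) * (2 + 3 * e) ≤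
      4 * ((1 - 4 * h * e) * (1 - h * e)) * ((1 + e + e ^ 2) * (2 + e)) := by
    apply mul_le_mul (by linarith) j3 (by positivity)
    have : 0 ≤ (1 - 4 * h * e) * (1 - h * e) := by linarith
    linarith
  linarith

/-- the function `P = q_D q_S (2+e) / (D₁² D₂ D₃)` -/
theorem P_bounds {D1 D2 D3 : ℝ} (he : 0 < e) (he1 : e < 1 / 181) (hh : 0 < h)
    (hhe : 60000 * h ≤ e) (e1 : D1 = h + 3) (e2 : D2 = h + 1 - e) (e3 : D3 = 1 - e - h * e) :
    qD e h * qS e h * (2 + e) ≤ (8 / 9 * (1 + 151 / 100 * e)) * (D1 ^ 2 * D2 * D3) ∧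
    (8 / 9 * (1 + 149 / 100 * e)) * (D1 ^ 2 * D2 * D3) ≤ qD e h * qS e h * (2 + e) := by
  have hh1 : h ≤ 1 / 60000 := by linarith
  have he2 : 0 < e ^ 2 := by positivity
  have hhe0 : 0 < h * e := by positivity
  have hhe1 : h * e ≤ 1 / 60000 * e := mul_le_mul_of_nonneg_right hh1 he.le
  have hqD1 : qD e h ≤ 2 * (1 - e) ^ 2 := by
    unfold qD
    nlinarith
  have hqD2 : 2 * (1 - e) ^ 2 * (1 - 4 * h * e) ≤ qD e h := by
    unfold qD
    have : 3 / 4 ≤ (1 - e) ^ 2 := by nlinarith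
    nlinarith
  have hqS1 : qS e h ≤ 2 * (1 + e + e ^ 2) := by
    unfold qS
    nlinarith
  have hqS2 : 2 * (1 + e + e ^ 2) * (1 - h * e) ≤ qS e h := by
    unfold qS
    have : 0 < h * e * e := by positivity
    have : 0 < h * e * e ^ 2 := by positivity
    nlinarith
  have hQ0 : 0 ≤ qD e h := by
    refine le_trans ?_ hqD2
    apply mul_nonneg (by positivity)
    nlinarith
  have hS0 : 0 ≤ qS e h := by
    refine le_trans ?_ hqS2
    apply mul_nonneg (by positivity)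
    nlinarith
  have hD : D2 * D3 = (1 - e) ^ 2 + h * (1 - e) ^ 2 - h ^ 2 * e := by
    rw [e2, e3]; ring
  have hDl : (1 - e) ^ 2 ≤ D2 * D3 := by
    rw [hD]
    have : 3 / 4 ≤ (1 - e) ^ 2 := by nlinarith
    nlinarith
  have hDu : D2 * D3 ≤ (1 - e) ^ 2 * (1 + h) := by
    rw [hD]
    nlinarith [mul_pos hh hhe0]
  have hD1l : 9 ≤ D1 ^ 2 := by rw [e1]; nlinarith
  have hD1u : D1 ^ 2 ≤ 9 * (1 + h) := by rw [e1]; nlinarith
  have q0 : 0 ≤ (1 - e) ^ 2 := sq_nonneg _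
  constructor
  · have k1 : qD e h * qS e h ≤ 2 * (1 - e) ^ 2 * (2 * (1 + e + e ^ 2)) :=
      mul_le_mul hqD1 hqS1 hS0 (by positivity)
    have k2 : 9 * (1 - e) ^ 2 ≤ D1 ^ 2 * D2 * D3 := by
      rw [mul_assoc]
      exact mul_le_mul hD1l hDl q0 (by positivity)
    have k3 : qD e h * qS e h * (2 + e) ≤ 2 * (1 - e) ^ 2 * (2 * (1 + e + e ^ 2)) * (2 + e) :=
      mul_le_mul_of_nonneg_right k1 (by linarith)
    have k4 : (8 / 9 * (1 + 151 / 100 * e)) * (9 * (1 - e) ^ 2) ≤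
        (8 / 9 * (1 + 151 / 100 * e)) * (D1 ^ 2 * D2 * D3) :=
      mul_le_mul_of_nonneg_left k2 (by positivity)
    have k5 : 4 * (1 + e + e ^ 2) * (2 + e) ≤ 8 * (1 + 151 / 100 * e) := by nlinarith
    have k6 := mul_le_mul_of_nonneg_right k5 q0
    linarith
  · have k1 : 2 * (1 - e) ^ 2 * (1 - 4 * h * e) * (2 * (1 + e + e ^ 2) * (1 - h * e)) ≤
        qD e h * qS e h := by
      apply mul_le_mul hqD2 hqS2 _ hQ0
      apply mul_nonneg (by positivity)
      nlinarith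
    have k2 : D1 ^ 2 * D2 * D3 ≤ 9 * (1 + h) * ((1 - e) ^ 2 * (1 + h)) := by
      rw [mul_assoc]
      exact mul_le_mul hD1u hDu (by linarith) (by positivity)
    have k3 := mul_le_mul_of_nonneg_right k1 (by linarith : 0 ≤ 2 + e)
    have k4 := mul_le_mul_of_nonneg_left k2 (by positivity : 0 ≤ 8 / 9 * (1 + 149 / 100 * e))
    have k5 := k5_lemma he he1 hh hhe
    have k6 := mul_le_mul_of_nonneg_right k5 q0
    linarith

/-- `ρ = r² s / (s² - r²)` is close to `1/2` -/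
theorem rho_bounds {a r s x e : ℝ} (he : 0 < e) (he1 : e < 1 / 181) (hr : 0 < r)
    (h1 : 1000 * a ≤ 123 * (e * r)) (h2 : 10000 ≤ e * r ^ 2) (hx1 : r - a ≤ x) (hx2 : x ≤ r + a)
    (hs : s = 2 * r * x - 1) (hsr : 199 / 100 * r ^ 2 ≤ s) :
    2 * (r ^ 2 * s) ≤ (1 + e / 7) * (s ^ 2 - r ^ 2) ∧
    (1 - e / 8) * (s ^ 2 - r ^ 2) ≤ 2 * (r ^ 2 * s) := by
  have hr2 : 0 < r ^ 2 := by positivity
  have hs0 : 0 < s := by nlinarith
  have hr21 : 10000 * 181 ≤ r ^ 2 := by nlinarith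
  have hrr : r ^ 2 ≤ s := by linarith
  constructor
  · -- s ≥ 2 r² (1 - 0.123 e) - 1
    have k1 : 2 * r ^ 2 - 246 / 1000 * e * r ^ 2 - 1 ≤ s := by
      rw [hs]
      have : r * (r - a) ≤ r * x := mul_le_mul_of_nonneg_left hx1 hr.le
      have : r * (1000 * a) ≤ r * (123 * (e * r)) := mul_le_mul_of_nonneg_left h1 hr.le
      nlinarith
    have k2 : s * (2 * r ^ 2) ≤ s * ((1 + e / 7) * (s - 1)) := by
      apply mul_le_mul_of_nonneg_left _ hs0.le
      have j1 : (1 + e / 7) * (2 * r ^ 2 - 246 / 1000 * e * r ^ 2 - 2) ≤ (1 + e / 7) * (s - 1) :=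
        mul_le_mul_of_nonneg_left (by linarith) (by positivity)
      have j2 : e * (e * r ^ 2) ≤ 1 / 181 * (e * r ^ 2) :=
        mul_le_mul_of_nonneg_right he1.le (by positivity)
      nlinarith
    have k3 : (1 + e / 7) * (s * s - s) ≤ (1 + e / 7) * (s ^ 2 - r ^ 2) :=
      mul_le_mul_of_nonneg_left (by nlinarith) (by positivity)
    linarith
  · -- s ≤ 2 r (r + a)
    have k1 : (1 - e / 8) * s ≤ 2 * r ^ 2 := by
      have j1 : s ≤ 2 * r ^ 2 + 246 / 1000 * e * r ^ 2 := by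
        rw [hs]
        have : r * x ≤ r * (r + a) := mul_le_mul_of_nonneg_left hx2 hr.le
        have : r * (1000 * a) ≤ r * (123 * (e * r)) := mul_le_mul_of_nonneg_left h1 hr.le
        nlinarith
      have j2 : (1 - e / 8) * s ≤ (1 - e / 8) * (2 * r ^ 2 + 246 / 1000 * e * r ^ 2) :=
        mul_le_mul_of_nonneg_left j1 (by linarith)
      have j3 : 0 ≤ e * (e * r ^ 2) := by positivity
      nlinarith
    have k2 := mul_le_mul_of_nonneg_right k1 hs0.le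
    have k3 : 0 ≤ (1 - e / 8) * r ^ 2 := mul_nonneg (by linarith) hr2.le
    linarith

end Pool.Agent.Work.MP_71a505_up.G1R

namespace Pool.Agent.Work.MP_71a505_up

open G1R

variable {a b c r s t W e h α β γ δ x : ℝ}

/-- BLOCK G1R : real inequality for the families `c₂^±`. -/
theorem G1_real (hz1 : e ^ 3 * b < a ∧ 3 * a ≤ 8 * (e ^ 3 * b) ∧ W ^ 2 ≤ b * c ∧
      b * c ≤ 4 * W ^ 2 ∧ h * c ≤ b ∧ 50 ≤ b ∧ W < t ∧ 47 * c ≤ 48 * (c - a))
    (R : RD a b c r s t W e h α β γ δ) (x0 : 0 < x) (hx : (x - r) ^ 2 = a ^ 2)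
    (hs : s = 2 * r * x - 1) (hb : 6000000 * a < b) :
    -(5 / 2) * e ≤ h * s * qS e h / ((h + 1 - e) * (1 - e - h * e))
        - (x / r) * ((h + 3) * e / (1 - e - h * e)) - 4 / 9 ∧
      h * s * qS e h / ((h + 1 - e) * (1 - e - h * e))
        - (x / r) * ((h + 3) * e / (1 - e - h * e)) - 4 / 9 < 0 ∧
      45 * (h * e ^ 2 * W) < 1 := by
  obtain ⟨z1, z2, z3, -, -, -, -, -⟩ := hz1
  have ha := R.ha
  have he := R.he
  have hh := R.hh
  have hr := R.hr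
  have he1 : e < 1 / 181 := e_small ha hb z1
  obtain ⟨f1, f2, f3, f4⟩ := ar_small he he1 ha hb z2 hr R.r2
  have hxa : |x - r| ≤ a := by
    have := abs_eq_abs.2 ((sq_eq_sq_iff_eq_or_eq_neg).1 hx)
    rw [this, abs_of_pos (by linarith)]
  obtain ⟨hx1', hx2'⟩ := abs_le.1 hxa
  have hx1 : r - a ≤ x := by linarith
  have hx2 : x ≤ r + a := by linarith
  obtain ⟨g1, g2⟩ := c_large ha hb hr R.r2 f3 R.s2 hx1 hs
  obtain ⟨h1, h2⟩ := h_small R he1 hb g2 f4
  obtain ⟨i1, i2⟩ := rho_bounds he he1 hr f1 f2 hx1 hx2 hs g1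
  obtain ⟨D1, hD1⟩ : ∃ D, D = h + 3 := ⟨_, rfl⟩
  obtain ⟨D2, hD2⟩ : ∃ D, D = h + 1 - e := ⟨_, rfl⟩
  obtain ⟨D3, hD3⟩ : ∃ D, D = 1 - e - h * e := ⟨_, rfl⟩
  obtain ⟨j1, j2⟩ := P_bounds he he1 hh h2 hD1 hD2 hD3
  have hhe1 : h * e ≤ 1 / 60000 * e := mul_le_mul_of_nonneg_right (by linarith) he.le
  have hhe0 : 0 < h * e := by positivity
  have p1 : 0 < D1 := by linarith
  have p2 : 0 < D2 := by linarith
  have p3 : 0 < D3 := by linarith
  have hs0 : 0 < s := R.hs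
  have hN : 0 < s ^ 2 - r ^ 2 := by
    rw [← R.s2, ← R.r2]
    have hbc : b < c := by
      have := R.hc
      have j : 1 * b ≤ a * b := mul_le_mul_of_nonneg_right ha (by linarith)
      linarith
    have j : a * b < a * c := mul_lt_mul_of_pos_left hbc (by linarith)
    linarith
  obtain ⟨F, hF⟩ : ∃ F, F = h * s * qS e h / (D2 * D3) := ⟨_, rfl⟩
  have hM : 0 < D1 ^ 2 * D2 * D3 := by positivity
  have hFe : F * (D1 ^ 2 * D2 * D3) * (s ^ 2 - r ^ 2) =
      (qD e h * qS e h * (2 + e)) * (r ^ 2 * s) := by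
    have k0 := h_formula R
    have k1 : a * (c - b) = s ^ 2 - r ^ 2 := by rw [← R.s2, ← R.r2]; ring
    rw [k1, R.r2, ← hD1] at k0
    have k2 : F * (D1 ^ 2 * D2 * D3) = s * qS e h * (h * D1 ^ 2) := by
      rw [hF]; field_simp
    rw [k2]
    linear_combination (s * qS e h) * k0
  -- upper bound
  have hFu : 2 * F ≤ (8 / 9 * (1 + 151 / 100 * e)) * (1 + e / 7) := by
    have k1 : (2 * F) * ((D1 ^ 2 * D2 * D3) * (s ^ 2 - r ^ 2)) ≤
        ((8 / 9 * (1 + 151 / 100 * e)) * (1 + e / 7)) * ((D1 ^ 2 * D2 * D3) * (s ^ 2 - r ^ 2)) := by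
      have k2 := mul_le_mul j1 i1 (by positivity) (by positivity)
      linarith
    exact le_of_mul_le_mul_right k1 (by positivity)
  have hFl : (8 / 9 * (1 + 149 / 100 * e)) * (1 - e / 8) ≤ 2 * F := by
    have k1 : ((8 / 9 * (1 + 149 / 100 * e)) * (1 - e / 8)) * ((D1 ^ 2 * D2 * D3) * (s ^ 2 - r ^ 2))
        ≤ (2 * F) * ((D1 ^ 2 * D2 * D3) * (s ^ 2 - r ^ 2)) := by
      have k2 := mul_le_mul j2 i2 (mul_nonneg (by linarith) hN.le)
        (le_trans (by positivity) j2)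
      linarith
    exact le_of_mul_le_mul_right k1 (by positivity)
  -- the second term
  obtain ⟨q, hq⟩ : ∃ q, q = x / r := ⟨_, rfl⟩
  have hq' : q * r = x := by rw [hq]; field_simp
  have hq1 : q ≤ 1001 / 1000 := by
    rw [hq, div_le_iff₀ hr]; linarith
  have hq2 : 999 / 1000 ≤ q := by
    rw [hq, le_div_iff₀ hr]; linarith
  obtain ⟨u, hu⟩ : ∃ u, u = D1 * e / D3 := ⟨_, rfl⟩
  have hu1 : u ≤ 302 / 100 * e := by
    rw [hu, div_le_iff₀ p3]
    have k1 : D1 ≤ 302 / 100 * D3 := by linarith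
    have k2 := mul_le_mul_of_nonneg_right k1 he.le
    linarith
  have hu2 : 3 * e ≤ u := by
    rw [hu, le_div_iff₀ p3]
    have k1 : 3 * D3 ≤ D1 := by linarith
    have k2 := mul_le_mul_of_nonneg_right k1 he.le
    linarith
  have hqu1 : q * u ≤ 1001 / 1000 * (302 / 100 * e) :=
    mul_le_mul hq1 hu1 (by linarith) (by norm_num)
  have hqu2 : 999 / 1000 * (3 * e) ≤ q * u :=
    mul_le_mul hq2 hu2 (by linarith) (by linarith)
  rw [← hD1, ← hD2, ← hD3, ← hF, ← hq, ← hu]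
  have ee : e * e ≤ 1 / 181 * e := mul_le_mul_of_nonneg_right he1.le he.le
  refine ⟨?_, ?_, third R he1 hb g2 h1 z1 z3⟩
  · linarith
  · linarith

end Pool.Agent.Work.MP_71a505_up
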